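import Pool.Agent.P8H14.CN.Stm

/-!
# Project CN: the second moment
-/

set_option autoImplicit false

namespace Pool.Agent.P8H80.CN

open Finset Pool.Agent.H38R2.CG Pool.Agent.P8H14.CN

lemma sum_inv_sqrt (N : ℕ) : ∑ n ∈ Ioc 0 N, 1 / √(n : ℝ) ≤ 2 * √(N : ℝ) := by
  induction N with
  | zero => simp
  | succ k ih =>
    rw [Finset.sum_Ioc_succ_top (Nat.zero_le k)]
    have hk : (0 : ℝ) ≤ (k : ℝ) := Nat.cast_nonneg k
    have h1 : 0 < √((k + 1 : ℕ) : ℝ) := Real.sqrt_pos.2 (by positivity)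
    have h2 : √((k + 1 : ℕ) : ℝ) * √((k + 1 : ℕ) : ℝ) = (k : ℝ) + 1 := by
      rw [Real.mul_self_sqrt (by positivity)]
      push_cast
      ring
    have h3 : √(k : ℝ) * √(k : ℝ) = (k : ℝ) := Real.mul_self_sqrt hk
    have h4 : 0 ≤ √(k : ℝ) := Real.sqrt_nonneg _
    have h5 : 1 / √((k + 1 : ℕ) : ℝ) ≤ 2 * √((k + 1 : ℕ) : ℝ) - 2 * √(k : ℝ) := by
      rw [div_le_iff₀ h1]
      nlinarith [sq_nonneg (√((k + 1 : ℕ) : ℝ) - √(k : ℝ))]
    linarith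

lemma sum_inv_sqrt' (z N : ℕ) : ∑ n ∈ Ioc z N, 1 / √(n : ℝ) ≤ 2 * √(N : ℝ) := by
  refine (Finset.sum_le_sum_of_subset_of_nonneg ?_ fun n _ _ => by positivity).trans
    (sum_inv_sqrt N)
  exact Finset.Ioc_subset_Ioc_left (Nat.zero_le z)

/-- **SEC**. -/
theorem sec (hM : S_MUL) (hO : S_OFF) (hD : S_DIAG) : S_SEC := by
  obtain ⟨hmul, habs, -, -⟩ := hM
  obtain ⟨C₁, hC₁, hO⟩ := hO
  obtain ⟨C₂, hC₂, hD⟩ := hD
  refine ⟨C₂ + 12 * C₁, by positivity, fun X z N hX hz hN => ?_⟩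
  have hX0 : (0 : ℝ) ≤ (X : ℝ) := Nat.cast_nonneg X
  have hX1 : (1 : ℝ) ≤ (X : ℝ) := by exact_mod_cast (by omega : 1 ≤ X)
  have hX2 : (2 : ℝ) ≤ (X : ℝ) := by exact_mod_cast hX
  -- expansion
  have e1 : ∀ D : ℕ, (∑ n ∈ Ioc z N, (chi (D : ℤ) n : ℝ) / n) ^ 2 =
      ∑ m ∈ Ioc z N, ∑ n ∈ Ioc z N, (chi (D : ℤ) (m * n) : ℝ) / ((m : ℝ) * n) := by
    intro D
    rw [sq, Finset.sum_mul_sum]
    refine Finset.sum_congr rfl fun m hm => Finset.sum_congr rfl fun n hn => ?_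
    rw [Finset.mem_Ioc] at hm hn
    rw [hmul D m n (by omega) (by omega)]
    push_cast
    rw [div_mul_div_comm]
  have e2 : ∑ D ∈ Icc 1 X, (∑ n ∈ Ioc z N, (chi (D : ℤ) n : ℝ) / n) ^ 2 =
      ∑ m ∈ Ioc z N, ∑ n ∈ Ioc z N, (∑ D ∈ Icc 1 X, (chi (D : ℤ) (m * n) : ℝ)) / ((m : ℝ) * n) := by
    rw [Finset.sum_congr rfl fun D _ => e1 D, Finset.sum_comm]
    refine Finset.sum_congr rfl fun m _ => ?_
    rw [Finset.sum_comm]
    refine Finset.sum_congr rfl fun n _ => ?_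
    rw [Finset.sum_div]
  have hlog : ∀ m n : ℕ, m ≤ N → n ≤ N →
      Real.log (((m * n : ℕ) : ℝ) + 1) ≤ 3 * Real.log X := by
    intro m n hm hn
    have hNX : (N : ℝ) ≤ X := by
      refine hN.trans ?_
      calc (X : ℝ) ^ (3 / 4 : ℝ) ≤ (X : ℝ) ^ (1 : ℝ) :=
            Real.rpow_le_rpow_of_exponent_le hX1 (by norm_num)
        _ = X := Real.rpow_one _
    have hm' : (m : ℝ) ≤ X := (by exact_mod_cast hm : (m : ℝ) ≤ N).trans hNX
    have hn' : (n : ℝ) ≤ X := (by exact_mod_cast hn : (n : ℝ) ≤ N).trans hNX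
    have h1 : ((m * n : ℕ) : ℝ) + 1 ≤ (X : ℝ) ^ 3 := by
      push_cast
      have h2 : (m : ℝ) * n ≤ X * X := mul_le_mul hm' hn' (Nat.cast_nonneg _) hX0
      nlinarith [mul_nonneg (mul_nonneg hX0 hX0) (sub_nonneg.2 hX2)]
    calc Real.log (((m * n : ℕ) : ℝ) + 1) ≤ Real.log ((X : ℝ) ^ 3) :=
          Real.log_le_log (by positivity) h1
      _ = 3 * Real.log X := by
          rw [Real.log_pow]
          norm_num
  have hlX : 0 ≤ Real.log X := Real.log_nonneg hX1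
  -- the bound for each pair
  have e3 : ∀ m ∈ Ioc z N, ∀ n ∈ Ioc z N,
      (∑ D ∈ Icc 1 X, (chi (D : ℤ) (m * n) : ℝ)) / ((m : ℝ) * n) ≤
        X * (if IsSquare (od (m * n)) then 1 / ((m : ℝ) * n) else 0) +
          3 * C₁ * Real.log X * ((1 / √(m : ℝ)) * (1 / √(n : ℝ))) := by
    intro m hm n hn
    rw [Finset.mem_Ioc] at hm hn
    have hm0 : (0 : ℝ) < m := by exact_mod_cast (by omega : 0 < m)
    have hn0 : (0 : ℝ) < n := by exact_mod_cast (by omega : 0 < n)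
    have hmn : (0 : ℝ) < (m : ℝ) * n := mul_pos hm0 hn0
    have hpos : 0 ≤ 3 * C₁ * Real.log X * ((1 / √(m : ℝ)) * (1 / √(n : ℝ))) := by positivity
    by_cases hs : IsSquare (od (m * n))
    · rw [if_pos hs]
      have h1 : ∑ D ∈ Icc 1 X, (chi (D : ℤ) (m * n) : ℝ) ≤ X := by
        have h2 : ∀ D ∈ Icc 1 X, (chi (D : ℤ) (m * n) : ℝ) ≤ 1 := fun D _ => by
          have := (abs_le.1 (habs (D : ℤ) (m * n))).2
          exact_mod_cast this
        refine (Finset.sum_le_sum h2).trans (le_of_eq ?_)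
        rw [Finset.sum_const, Nat.card_Icc, nsmul_eq_mul, mul_one]
        simp
      have h3 : (∑ D ∈ Icc 1 X, (chi (D : ℤ) (m * n) : ℝ)) / ((m : ℝ) * n) ≤
          X * (1 / ((m : ℝ) * n)) := by
        rw [mul_one_div]
        exact div_le_div_of_nonneg_right h1 hmn.le
      linarith
    · rw [if_neg hs, mul_zero, zero_add]
      have h1 := hO X (m * n) (Nat.mul_pos (by omega) (by omega)) hs
      have h2 : ∑ D ∈ Icc 1 X, (chi (D : ℤ) (m * n) : ℝ) ≤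
          C₁ * √((m * n : ℕ) : ℝ) * (3 * Real.log X) :=
        (le_abs_self _).trans (h1.trans
          (mul_le_mul_of_nonneg_left (hlog m n hm.2 hn.2) (by positivity)))
      rw [div_le_iff₀ hmn]
      refine h2.trans (le_of_eq ?_)
      push_cast
      rw [Real.sqrt_mul hm0.le]
      have h3 : √(m : ℝ) ≠ 0 := (Real.sqrt_pos.2 hm0).ne'
      have h4 : √(n : ℝ) ≠ 0 := (Real.sqrt_pos.2 hn0).ne'
      have h5 : (m : ℝ) = √(m : ℝ) * √(m : ℝ) := (Real.mul_self_sqrt hm0.le).symm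
      have h6 : (n : ℝ) = √(n : ℝ) * √(n : ℝ) := (Real.mul_self_sqrt hn0.le).symm
      have h7 : 3 * C₁ * Real.log X * ((1 / √(m : ℝ)) * (1 / √(n : ℝ))) * ((m : ℝ) * n) =
          3 * C₁ * Real.log X * (((1 / √(m : ℝ)) * m) * ((1 / √(n : ℝ)) * n)) := by ring
      have h8 : (1 / √(m : ℝ)) * m = √(m : ℝ) := by
        rw [one_div_mul_eq_div, div_eq_iff h3]
        exact h5
      have h9 : (1 / √(n : ℝ)) * n = √(n : ℝ) := by
        rw [one_div_mul_eq_div, div_eq_iff h4]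
        exact h6
      rw [h7, h8, h9]
      ring
  rw [e2]
  refine (Finset.sum_le_sum fun m hm => Finset.sum_le_sum fun n hn => e3 m hm n hn).trans ?_
  simp only [Finset.sum_add_distrib]
  have e4 : ∑ m ∈ Ioc z N, ∑ n ∈ Ioc z N,
      (X : ℝ) * (if IsSquare (od (m * n)) then 1 / ((m : ℝ) * n) else 0) ≤
        X * (C₂ * (z : ℝ) ^ (-(1 / 4) : ℝ)) := by
    simp only [← Finset.mul_sum]
    exact mul_le_mul_of_nonneg_left (hD z N hz) hX0
  have e5 : ∑ m ∈ Ioc z N, ∑ n ∈ Ioc z N,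
      3 * C₁ * Real.log X * ((1 / √(m : ℝ)) * (1 / √(n : ℝ))) ≤
        3 * C₁ * Real.log X * (4 * N) := by
    simp only [← Finset.mul_sum]
    refine mul_le_mul_of_nonneg_left ?_ (by positivity)
    rw [← Finset.sum_mul]
    have h1 := sum_inv_sqrt' z N
    have h2 : 0 ≤ ∑ n ∈ Ioc z N, 1 / √(n : ℝ) := Finset.sum_nonneg fun n _ => by positivity
    calc (∑ n ∈ Ioc z N, 1 / √(n : ℝ)) * ∑ n ∈ Ioc z N, 1 / √(n : ℝ)
        ≤ (2 * √(N : ℝ)) * (2 * √(N : ℝ)) := mul_le_mul h1 h1 h2 (by positivity)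
      _ = 4 * (√(N : ℝ) * √(N : ℝ)) := by ring
      _ = 4 * N := by rw [Real.mul_self_sqrt (Nat.cast_nonneg _)]
  have e6 : 3 * C₁ * Real.log X * (4 * N) ≤ 12 * C₁ * ((X : ℝ) ^ (3 / 4 : ℝ) * Real.log X) := by
    have h1 : 3 * C₁ * Real.log X * (4 * N) = 12 * C₁ * (N * Real.log X) := by ring
    rw [h1]
    exact mul_le_mul_of_nonneg_left (mul_le_mul_of_nonneg_right hN hlX) (by positivity)
  have p1 : 0 ≤ (X : ℝ) * (z : ℝ) ^ (-(1 / 4) : ℝ) := by positivity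
  have p2 : 0 ≤ (X : ℝ) ^ (3 / 4 : ℝ) * Real.log X := by positivity
  nlinarith [mul_nonneg hC₂.le p2, mul_nonneg hC₁.le p1]

end Pool.Agent.P8H80.CN
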